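import Pool.Agent.W_7d29a1_h95.PathB

/-! Bounds on the logarithms and quenched expectations. -/

set_option autoImplicit false

namespace Pol95

open MeasureTheory

theorem PathC_exp (h : ℝ) (w : Env) {n : ℕ} (s : Fin n → Bool) :
    |en w s + h * (pos s n : ℝ)| ≤ |h| * n + ∑ z ∈ cone n, |w z| := by
  have h1 := abs_en_le w s
  have h2 : |(pos s n : ℝ)| ≤ n := by
    have := abs_pos_le' s n
    have h3 : ((|pos s n| : ℤ) : ℝ) ≤ ((n : ℤ) : ℝ) := by exact_mod_cast this
    rw [Int.cast_abs] at h3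
    simpa using h3
  have h3 : |h * (pos s n : ℝ)| ≤ |h| * n := by
    rw [abs_mul]
    exact mul_le_mul_of_nonneg_left h2 (abs_nonneg h)
  have h4 := abs_add_le (en w s) (h * (pos s n : ℝ))
  linarith

theorem PathC_wt (h : ℝ) (w : Env) {n : ℕ} (s : Fin n → Bool) :
    (1 / 2) ^ n * Real.exp (-(|h| * n + ∑ z ∈ cone n, |w z|)) ≤ wt h w s ∧
      wt h w s ≤ (1 / 2) ^ n * Real.exp (|h| * n + ∑ z ∈ cone n, |w z|) := by
  have h1 := abs_le.1 (PathC_exp h w s)
  unfold wt
  constructor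
  · apply mul_le_mul_of_nonneg_left _ (by positivity)
    exact Real.exp_le_exp.2 h1.1
  · apply mul_le_mul_of_nonneg_left _ (by positivity)
    exact Real.exp_le_exp.2 h1.2

theorem PathC_card (n : ℕ) (x : ℝ) : ∑ _s : Fin n → Bool, (1 / 2 : ℝ) ^ n * x = x := by
  rw [Finset.sum_const, Finset.card_univ, Fintype.card_fun, Fintype.card_bool, Fintype.card_fin, nsmul_eq_mul]
  push_cast
  rw [← mul_assoc, ← mul_pow]
  norm_num

theorem PathC_Z_bounds (h : ℝ) (w : Env) (n : ℕ) :
    Real.exp (-(|h| * n + ∑ z ∈ cone n, |w z|)) ≤ Z h w n ∧ Z h w n ≤ Real.exp (|h| * n + ∑ z ∈ cone n, |w z|) := by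
  constructor
  · rw [← PathC_card n (Real.exp (-(|h| * n + ∑ z ∈ cone n, |w z|)))]
    exact Finset.sum_le_sum fun s _ => (PathC_wt h w s).1
  · rw [← PathC_card n (Real.exp (|h| * n + ∑ z ∈ cone n, |w z|))]
    exact Finset.sum_le_sum fun s _ => (PathC_wt h w s).2

/-- `Z` is an average of `exp(en + h pos)` over the `2^n` walks, and `|en| ≤ ∑_{cone n} |w|`,
`|pos| ≤ n`. -/
theorem abs_log_Z_le (h : ℝ) (w : Env) (n : ℕ) :
    |Real.log (Z h w n)| ≤ |h| * n + ∑ z ∈ cone n, |w z| := by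
  have h1 := PathC_Z_bounds h w n
  rw [abs_le]
  constructor
  · rw [Real.le_log_iff_exp_le (Z_pos h w n), neg_add]
    rw [neg_add] at h1
    exact h1.1
  · rw [Real.log_le_iff_le_exp (Z_pos h w n)]
    exact h1.2

/-- If some walk ends at `y`: `2^{-n} e^{-M} ≤ K ≤ e^{M}`, `M = |h| n + ∑_{cone n} |w|`. -/
theorem abs_log_K_le (h : ℝ) (w : Env) (n : ℕ) (y : ℤ) (s : Fin n → Bool) (hs : pos s n = y) :
    |Real.log (K h w n y)| ≤ n * Real.log 2 + |h| * n + ∑ z ∈ cone n, |w z| := by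
  have hK := K_pos h w n y s hs
  have hl2 : 0 ≤ Real.log 2 := Real.log_nonneg (by norm_num)
  have hn : (0 : ℝ) ≤ n := Nat.cast_nonneg n
  have h0 : 0 ≤ (n : ℝ) * Real.log 2 := mul_nonneg hn hl2
  rw [abs_le]
  constructor
  · rw [Real.le_log_iff_exp_le hK]
    have h1 : wt h w s ≤ K h w n y := by
      unfold K
      have h2 := Finset.single_le_sum (f := fun s : Fin n → Bool => if pos s n = y then wt h w s else 0)
        (fun s' _ => by
          show 0 ≤ if pos s' n = y then wt h w s' else 0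
          split_ifs
          · exact (wt_pos h w s').le
          · exact le_rfl) (Finset.mem_univ s)
      simp only [hs, if_true] at h2
      exact h2
    refine le_trans ?_ ((PathC_wt h w s).1.trans h1)
    have h3 : (1 / 2 : ℝ) ^ n = Real.exp (-(n * Real.log 2)) := by
      rw [Real.exp_neg, Real.exp_nat_mul, Real.exp_log (by norm_num)]
      rw [one_div, inv_pow]
    rw [h3, ← Real.exp_add]
    apply le_of_eq
    congr 1
    ring
  · have h1 : K h w n y ≤ Real.exp (|h| * n + ∑ z ∈ cone n, |w z|) := (K_le_Z h w n y).trans (PathC_Z_bounds h w n).2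
    have h2 := (Real.log_le_iff_le_exp hK).2 h1
    linarith

/-- One step: `Z_1(w) = (e^{w(0,1)+h} + e^{w(0,-1)-h})/2` (sum over `Fin 1 → Bool`). -/
theorem Z_one (h : ℝ) (w : Env) :
    Z h w 1 = (Real.exp (w (0, 1) + h) + Real.exp (w (0, -1) - h)) / 2 := by
  unfold Z
  have e : ∑ s : Fin 1 → Bool, wt h w s = ∑ b : Bool, wt h w (fun _ : Fin 1 => b) := by
    refine Fintype.sum_equiv (Equiv.funUnique (Fin 1) Bool) _ _ fun s => ?_
    congr 1
    funext i
    rw [Subsingleton.elim i default]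
    rfl
  rw [e, Fintype.sum_bool]
  unfold wt en pos sg
  simp
  ring_nf

theorem Z_zero (h : ℝ) (w : Env) : Z h w 0 = 1 := by
  unfold Z wt en pos
  simp

/-- Quenched expectations: linearity and bounds. -/
theorem E1_const (h : ℝ) (w : Env) (n : ℕ) (c : ℝ) : E1 h w n (fun _ => c) = c := by
  unfold E1
  rw [← Finset.sum_mul, ← Z, mul_comm, mul_div_assoc, div_self (Z_pos h w n).ne', mul_one]

theorem E1_add (h : ℝ) (w : Env) (n : ℕ) (f g : (Fin n → Bool) → ℝ) :
    E1 h w n (fun s => f s + g s) = E1 h w n f + E1 h w n g := by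
  unfold E1
  rw [← add_div, ← Finset.sum_add_distrib]
  congr 1
  exact Finset.sum_congr rfl fun s _ => mul_add _ _ _

theorem E1_mul_left (h : ℝ) (w : Env) (n : ℕ) (c : ℝ) (f : (Fin n → Bool) → ℝ) :
    E1 h w n (fun s => c * f s) = c * E1 h w n f := by
  unfold E1
  rw [← mul_div_assoc, Finset.mul_sum]
  congr 1
  refine Finset.sum_congr rfl fun s _ => ?_
  ring

theorem E1_mono (h : ℝ) (w : Env) (n : ℕ) (f g : (Fin n → Bool) → ℝ) (hfg : ∀ s, f s ≤ g s) :
    E1 h w n f ≤ E1 h w n g := by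
  unfold E1
  apply div_le_div_of_nonneg_right _ (Z_pos h w n).le
  exact Finset.sum_le_sum fun s _ => mul_le_mul_of_nonneg_left (hfg s) (wt_pos h w s).le

theorem PathC_E2_mul (h : ℝ) (w : Env) (n : ℕ) (f g : (Fin n → Bool) → ℝ) (k : (Fin n → Bool) → (Fin n → Bool) → ℝ)
    (hk : ∀ s s', k s s' = f s * g s') :
    E2 h w n k = E1 h w n f * E1 h w n g := by
  unfold E2 E1
  rw [div_mul_div_comm, ← pow_two, Finset.sum_mul_sum]
  congr 1
  refine Finset.sum_congr rfl fun s _ => Finset.sum_congr rfl fun s' _ => ?_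
  rw [hk]
  ring

theorem E2_const (h : ℝ) (w : Env) (n : ℕ) (c : ℝ) : E2 h w n (fun _ _ => c) = c := by
  rw [PathC_E2_mul h w n (fun _ => c) (fun _ => 1) (fun _ _ => c) (fun _ _ => (mul_one c).symm)]
  rw [E1_const, E1_const, mul_one]

theorem E2_add (h : ℝ) (w : Env) (n : ℕ) (f g : (Fin n → Bool) → (Fin n → Bool) → ℝ) :
    E2 h w n (fun s s' => f s s' + g s s') = E2 h w n f + E2 h w n g := by
  unfold E2
  rw [← add_div, ← Finset.sum_add_distrib]
  congr 1
  refine Finset.sum_congr rfl fun s _ => ?_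
  rw [← Finset.sum_add_distrib]
  exact Finset.sum_congr rfl fun s' _ => mul_add _ _ _

theorem E2_mul_left (h : ℝ) (w : Env) (n : ℕ) (c : ℝ) (f : (Fin n → Bool) → (Fin n → Bool) → ℝ) :
    E2 h w n (fun s s' => c * f s s') = c * E2 h w n f := by
  unfold E2
  rw [← mul_div_assoc, Finset.mul_sum]
  congr 1
  refine Finset.sum_congr rfl fun s _ => ?_
  rw [Finset.mul_sum]
  refine Finset.sum_congr rfl fun s' _ => ?_
  ring

theorem E2_mono (h : ℝ) (w : Env) (n : ℕ) (f g : (Fin n → Bool) → (Fin n → Bool) → ℝ)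
    (hfg : ∀ s s', f s s' ≤ g s s') : E2 h w n f ≤ E2 h w n g := by
  unfold E2
  apply div_le_div_of_nonneg_right _ (pow_nonneg (Z_pos h w n).le 2)
  exact Finset.sum_le_sum fun s _ => Finset.sum_le_sum fun s' _ =>
    mul_le_mul_of_nonneg_left (hfg s s') (mul_nonneg (wt_pos h w s).le (wt_pos h w s').le)

/-- A function of the first replica only. -/
theorem E2_fst (h : ℝ) (w : Env) (n : ℕ) (f : (Fin n → Bool) → ℝ) :
    E2 h w n (fun s _ => f s) = E1 h w n f := by
  rw [PathC_E2_mul h w n f (fun _ => 1) (fun s _ => f s) (fun s _ => (mul_one (f s)).symm), E1_const, mul_one]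

/-- A function of the second replica only. -/
theorem E2_snd (h : ℝ) (w : Env) (n : ℕ) (f : (Fin n → Bool) → ℝ) :
    E2 h w n (fun _ s' => f s') = E1 h w n f := by
  rw [PathC_E2_mul h w n (fun _ => 1) f (fun _ s' => f s') (fun _ s' => (one_mul (f s')).symm), E1_const, one_mul]

/-- Product functions. -/
theorem E2_mul (h : ℝ) (w : Env) (n : ℕ) (f g : (Fin n → Bool) → ℝ) :
    E2 h w n (fun s s' => f s * g s') = E1 h w n f * E1 h w n g := by
  exact PathC_E2_mul h w n f g _ fun _ _ => rfl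

/-- Jensen: `E_w f ≤ log E_w e^f` (convexity of `exp`, `ConvexOn.map_sum_le` or
`Real.add_one_le_exp` applied to `f - E_w f`). -/
theorem E1_le_log (h : ℝ) (w : Env) (n : ℕ) (f : (Fin n → Bool) → ℝ) :
    E1 h w n f ≤ Real.log (E1 h w n (fun s => Real.exp (f s))) := by
  set a := E1 h w n f with ha
  have h1 : Real.exp a ≤ E1 h w n (fun s => Real.exp (f s)) := by
    have h2 : E1 h w n (fun s => Real.exp a * (f s + (1 - a))) = Real.exp a := by
      rw [E1_mul_left h w n (Real.exp a) (fun s => f s + (1 - a)), E1_add h w n f (fun _ => 1 - a), E1_const, ← ha]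
      ring
    rw [← h2]
    apply E1_mono
    intro s
    have h3 := Real.add_one_le_exp (f s - a)
    have h4 : Real.exp (f s) = Real.exp a * Real.exp (f s - a) := by
      rw [← Real.exp_add]
      congr 1
      ring
    rw [h4]
    apply mul_le_mul_of_nonneg_left _ (Real.exp_pos a).le
    linarith
  rw [Real.le_log_iff_exp_le (lt_of_lt_of_le (Real.exp_pos a) h1)]
  exact h1

end Pol95
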